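import Pool.Agent.Helper11.M3.GoalsA
import Pool.Agent.Helper91.PPB.BNTV2

/-!
# Project M3: A_TAU, the involution of the self-dual and of the unitary case
-/

set_option autoImplicit false

namespace Pool.Agent.Helper66.M3

open NumberField Polynomial Module IsDedekindDomain
open _root_.Pool.Agent.Helper42.PP (nsig)
open _root_.Pool.Agent.Helper42.PP1 (SitW)
open _root_.Pool.Agent.Helper22.PP (nsig_ne)
open _root_.Pool.Agent.Helper76.PP (root_pow_eq_one)
open _root_.Pool.Agent.Helper38.WY (NTV3 SDual)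
open _root_.Pool.Agent.Helper91.PPB (finite_adjoin root_pow_ne)
open _root_.Pool.Agent.Helper11.M3 (NzG NzT)

theorem zmod_two : ∀ a : ZMod 2, a ≠ 0 → a = 1 := by decide

section field

variable {p : ℕ} [hpF : Fact p.Prime] {P : (ZMod p)[X]} [hPF : Fact (Irreducible P)]

theorem charP_adjoin : CharP (AdjoinRoot P) p :=
  charP_of_injective_algebraMap (algebraMap (ZMod p) (AdjoinRoot P)).injective p

theorem finrank_adjoin : finrank (ZMod p) (AdjoinRoot P) = P.natDegree := by
  rw [(AdjoinRoot.powerBasis hPF.out.ne_zero).finrank, AdjoinRoot.powerBasis_dim]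

theorem exists_tau (j : ℕ) : ∃ τ : AdjoinRoot P ≃+* AdjoinRoot P, ∀ z, τ z = z ^ p ^ j := by
  have hfin : Finite (AdjoinRoot P) := finite_adjoin
  have hch : CharP (AdjoinRoot P) p := charP_adjoin
  have hex : ExpChar (AdjoinRoot P) p := ExpChar.prime hpF.out
  have hinj : Function.Injective (iterateFrobenius (AdjoinRoot P) p j) :=
    (iterateFrobenius (AdjoinRoot P) p j).injective
  exact ⟨RingEquiv.ofBijective (iterateFrobenius (AdjoinRoot P) p j)
    (Finite.injective_iff_bijective.1 hinj), fun z ↦ rfl⟩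

theorem pow_card' (z : AdjoinRoot P) : z ^ p ^ P.natDegree = z := by
  have hfin : Finite (AdjoinRoot P) := finite_adjoin
  have hft : Fintype (AdjoinRoot P) := Fintype.ofFinite _
  have hmf : Module.Finite (ZMod p) (AdjoinRoot P) :=
    (AdjoinRoot.powerBasis hPF.out.ne_zero).finite
  have h4 : Fintype.card (AdjoinRoot P) = p ^ P.natDegree := by
    rw [← Nat.card_eq_fintype_card, Module.natCard_eq_pow_finrank (K := ZMod p), Nat.card_zmod,
      finrank_adjoin]
  rw [← h4]
  exact FiniteField.pow_card z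

theorem trace_ne : Algebra.trace (ZMod p) (AdjoinRoot P) ≠ 0 := by
  have hfin : Finite (AdjoinRoot P) := finite_adjoin
  have hmf : Module.Finite (ZMod p) (AdjoinRoot P) :=
    (AdjoinRoot.powerBasis hPF.out.ne_zero).finite
  exact Algebra.trace_ne_zero (ZMod p) (AdjoinRoot P)

theorem trace_tau (τ : AdjoinRoot P ≃+* AdjoinRoot P) (z : AdjoinRoot P) :
    Algebra.trace (ZMod p) (AdjoinRoot P) (τ z) = Algebra.trace (ZMod p) (AdjoinRoot P) z := by
  have hf : ∀ r : ZMod p, τ (algebraMap (ZMod p) (AdjoinRoot P) r) =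
      algebraMap (ZMod p) (AdjoinRoot P) r := by
    intro r
    have h : (τ : AdjoinRoot P →+* AdjoinRoot P).comp (algebraMap (ZMod p) (AdjoinRoot P)) =
        algebraMap (ZMod p) (AdjoinRoot P) := Subsingleton.elim _ _
    exact congrArg (fun φ : ZMod p →+* AdjoinRoot P ↦ φ r) h
  exact Algebra.trace_eq_of_algEquiv (AlgEquiv.ofRingEquiv (f := τ) hf) z

end field

theorem a_tau : _root_.Pool.Agent.Helper11.M3.A_TAU := by
  intro p hpF K M K₁ M₁ _ _ _ _ _ _ _ _ _ _ _ _ _ ε δ P hPF hW hN j hS hj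
  have hp : p.Prime := hpF.out
  have : IsScalarTower K M M₁ := hW.st1
  have : IsScalarTower K K₁ M₁ := hW.st2
  have : IsGalois K M := hW.gM
  have : IsGalois K K₁ := hW.gK
  have : IsGalois K M₁ := hW.gMK
  have hm0 : 0 < finrank K M := finrank_pos
  have htm : (AdjoinRoot.root P) ^ finrank K M = 1 := root_pow_eq_one hW.dvdP
  obtain ⟨τ, hτ⟩ := exists_tau (p := p) (P := P) j
  have hinv : ∀ z, τ (τ z) = z := by
    intro z
    rw [hτ, hτ, ← pow_mul, ← pow_add]
    rcases hj with h0 | h2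
    · rw [h0, add_zero, pow_zero, pow_one]
    · rw [← two_mul, ← h2]
      exact pow_card' z
  have hne : j ≠ 0 → τ ≠ RingEquiv.refl _ := by
    intro hj0 he
    have h2 : P.natDegree = 2 * j := hj.resolve_left hj0
    have h3 := root_pow_ne (p := p) (P := P) (k := j) (Nat.pos_of_ne_zero hj0)
      (by rw [finrank_adjoin]; omega)
    apply h3
    rw [← hτ, he]
    rfl
  refine ⟨τ, hinv, ?_, ?_, hne, ?_⟩
  · intro hp2
    by_cases hj0 : j = 0
    · exfalso
      subst hp2
      have hch : CharP (AdjoinRoot P) 2 := charP_adjoin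
      obtain ⟨g₁, hg₁⟩ := AlgEquiv.restrictNormalHom_surjective (F := K) (K₁ := M) M₁ δ
      have h1 := hS g₁ 1 (AlgEquiv.restrictNormalHom K₁ g₁)
        (fun y ↦ by
          rw [pow_one, ← hg₁]
          exact (AlgEquiv.restrictNormal_commutes g₁ M y).symm)
        (fun y ↦ (AlgEquiv.restrictNormal_commutes g₁ K₁ y).symm)
      have h2 : nsig 2 ε (AlgEquiv.restrictNormalHom K₁ g₁) = 1 := by
        have h3 := nsig_ne hW.prim (AlgEquiv.restrictNormalHom (F := K) K₁ g₁)
        exact zmod_two _ h3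
      rw [h2, map_one, hj0, pow_one, pow_zero] at h1
      have h5 : (AdjoinRoot.root P) = 1 := by
        have h6 : (AdjoinRoot.root P - 1) * (AdjoinRoot.root P - 1) = 0 := by
          have h7 : (2 : AdjoinRoot P) = 0 := CharTwo.two_eq_zero
          linear_combination h1 + (1 - AdjoinRoot.root P) * h7
        exact sub_eq_zero.1 (mul_self_eq_zero.1 h6)
      obtain ⟨g, i, σ, -, -, -, hc⟩ := hN (Algebra.trace (ZMod 2) (AdjoinRoot P)) trace_ne 1 0
        (-(Algebra.trace (ZMod 2) (AdjoinRoot P) 1)) one_ne_zero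
      apply hc
      rw [h5, one_pow, mul_one, zero_mul, add_zero, add_neg_cancel]
    · exact hne hj0
  · intro hj0
    ext z
    rw [hτ, hj0, pow_zero, pow_one]
    rfl
  · intro η η' γ γ' hη
    obtain ⟨g, i, σ, him, ha, hb, hc⟩ := hN (Algebra.trace (ZMod p) (AdjoinRoot P)) trace_ne
      (η + τ η') γ γ' hη
    refine ⟨g, i, σ, him, ha, hb, ?_⟩
    have hn0 : nsig p ε σ ≠ 0 := nsig_ne hW.prim σ
    set n := nsig p ε σ with hn
    set ζ := AdjoinRoot.root P ^ i with hζ
    have hζinv : AdjoinRoot.root P ^ (finrank K M - i) = ζ⁻¹ := by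
      symm
      rw [hζ]
      apply inv_eq_of_mul_eq_one_right
      rw [← pow_add, Nat.add_sub_cancel' him.le, htm]
    have hζ0 : ζ ≠ 0 := by
      intro h0
      have h1 : ζ * AdjoinRoot.root P ^ (finrank K M - i) = 1 := by
        rw [hζ, ← pow_add, Nat.add_sub_cancel' him.le, htm]
      rw [h0, zero_mul] at h1
      exact zero_ne_one h1
    have hτζ0 : τ ζ ≠ 0 := by
      intro h0
      exact hζ0 ((map_eq_zero_iff τ τ.injective).1 h0)
    have hs : ζ * τ ζ = algebraMap (ZMod p) (AdjoinRoot P) n := by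
      rw [hτ, ← hS g i σ ha hb, pow_add, pow_one]
    have hkey : n⁻¹ * Algebra.trace (ZMod p) (AdjoinRoot P) (η' * ζ) =
        Algebra.trace (ZMod p) (AdjoinRoot P) (τ η' * ζ⁻¹) := by
      rw [← smul_eq_mul, ← map_smul, Algebra.smul_def, map_inv₀, ← hs]
      have h1 : (ζ * τ ζ)⁻¹ * (η' * ζ) = η' * (τ ζ)⁻¹ := by
        field_simp
      rw [h1, ← trace_tau τ, map_mul, map_inv₀, hinv]
    rw [hkey, hζinv]
    rw [hζinv, add_mul, map_add] at hc
    intro h0
    apply hc
    rw [← h0]

end Pool.Agent.Helper66.M3
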